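import Mathlib

/-!
# Blow-ups and the Bogomolov-Miyaoka-Yau inequality for symplectic four-manifolds
-/

set_option autoImplicit false

namespace Pool.Agent.Q28.BM

universe u

/-- Closed connected symplectic four-manifolds `X` with their numbers `b₁`, `b⁺` (`bp`) and `b⁻`
(`bm`); `Blow X Y`: `Y` is diffeomorphic to the blow-up `X # -CP²` of `X`; `SC X`: `X` is simply
connected; `IsPlane X`: `X` is diffeomorphic to `CP²`. -/
structure Symplectic where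
  Mfd : Type u
  b₁ : Mfd → ℕ
  bp : Mfd → ℕ
  bm : Mfd → ℕ
  Blow : Mfd → Mfd → Prop
  SC : Mfd → Prop
  IsPlane : Mfd → Prop

variable {T : Symplectic.{u}}

/-- the Euler characteristic -/
def e (X : T.Mfd) : ℤ := 2 - 2 * T.b₁ X + (T.bp X + T.bm X)

/-- the signature -/
def sig (X : T.Mfd) : ℤ := T.bp X - T.bm X

/-- the Chern number `c₁²` -/
def c₁sq (X : T.Mfd) : ℤ := 2 * e X + 3 * sig X

/-- `X` is minimal: not diffeomorphic to a blow-up of a symplectic four-manifold -/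
def Minimal (X : T.Mfd) : Prop := ∀ X₀ : T.Mfd, ¬ T.Blow X₀ X

/-- Known facts. `parity`: `1 - b₁ + b⁺` is even (almost complex structure). `exists_blow` and
`blow`: symplectic blow-ups; `blow_sc`: the fundamental group does not change. `plane`: `CP²` is
simply connected, `b⁺ = 1`, `b⁻ = 0`. -/
structure Symplectic.Facts (T : Symplectic.{u}) : Prop where
  parity : ∀ X, Even (1 - (T.b₁ X : ℤ) + T.bp X)
  exists_blow : ∀ X, ∃ Y, T.Blow X Y
  blow : ∀ X Y, T.Blow X Y → T.b₁ Y = T.b₁ X ∧ T.bp Y = T.bp X ∧ T.bm Y = T.bm X + 1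
  blow_sc : ∀ X Y, T.Blow X Y → (T.SC Y ↔ T.SC X)
  plane : ∀ X, T.IsPlane X → T.SC X ∧ T.bp X = 1 ∧ T.bm X = 0

/-- the excess `3σ - e = c₁² - 3c₂` -/
def D (X : T.Mfd) : ℤ := 3 * sig X - e X

theorem D_eq (X : T.Mfd) : D X = c₁sq X - 3 * e X := by
  rw [D, c₁sq]
  ring

theorem Symplectic.Facts.dvd (hT : T.Facts) (X : T.Mfd) : (4 : ℤ) ∣ D X := by
  obtain ⟨k, hk⟩ := hT.parity X
  refine ⟨k - T.bm X + T.b₁ X - 1, ?_⟩
  rw [D, sig, e]
  linarith

theorem Symplectic.Facts.D_blow (hT : T.Facts) {X Y : T.Mfd} (h : T.Blow X Y) :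
    D Y = D X - 4 := by
  obtain ⟨h1, h2, h3⟩ := hT.blow X Y h
  rw [D, D, sig, sig, e, e, h1, h2, h3]
  push_cast
  ring

/-- repeated blow-ups -/
theorem Symplectic.Facts.iterate (hT : T.Facts) (X : T.Mfd) (k : ℕ) : ∃ Y : T.Mfd,
    T.b₁ Y = T.b₁ X ∧ T.bp Y = T.bp X ∧ T.bm Y = T.bm X + k ∧ (T.SC Y ↔ T.SC X) ∧
      D Y = D X - 4 * k ∧ (0 < k → ¬ Minimal Y) := by
  induction k with
  | zero => exact ⟨X, rfl, rfl, rfl, Iff.rfl, by simp, fun h => absurd h (lt_irrefl 0)⟩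
  | succ k ih =>
    obtain ⟨Y, h1, h2, h3, h4, h5, -⟩ := ih
    obtain ⟨Z, hZ⟩ := hT.exists_blow Y
    obtain ⟨g1, g2, g3⟩ := hT.blow Y Z hZ
    refine ⟨Z, by rw [g1, h1], by rw [g2, h2], by rw [g3, h3]; ring, (hT.blow_sc Y Z hZ).trans h4,
      ?_, fun _ hm => hm Y hZ⟩
    rw [hT.D_blow hZ, h5]
    push_cast
    ring

/-- the equivalences for a class `P` of manifolds which does not change under blow-ups -/
theorem Symplectic.Facts.tfae (hT : T.Facts) (P : T.Mfd → Prop)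
    (hP : ∀ X Y, T.Blow X Y → (P Y ↔ P X)) :
    [∀ X, P X → c₁sq X ≤ 3 * e X,
     ∀ X, P X → Minimal X → c₁sq X ≤ 3 * e X,
     ∀ X, P X → c₁sq X ≠ 3 * e X + 4,
     ∀ X, P X → c₁sq X = 3 * e X → Minimal X].TFAE := by
  have hit : ∀ (X : T.Mfd) (k : ℕ), ∃ Y : T.Mfd, (P Y ↔ P X) ∧ D Y = D X - 4 * k ∧
      (0 < k → ¬ Minimal Y) := fun X k => by
    induction k with
    | zero => exact ⟨X, Iff.rfl, by simp, fun h => absurd h (lt_irrefl 0)⟩
    | succ k ih =>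
      obtain ⟨Y, h4, h5, -⟩ := ih
      obtain ⟨Z, hZ⟩ := hT.exists_blow Y
      refine ⟨Z, (hP Y Z hZ).trans h4, ?_, fun _ hm => hm Y hZ⟩
      rw [hT.D_blow hZ, h5]
      push_cast
      ring
  have hmin : ∀ X : T.Mfd, ∃ Y : T.Mfd, Minimal Y ∧ (P Y ↔ P X) ∧ D X ≤ D Y := fun X => by
    generalize hn : T.bm X = n
    induction n using Nat.strong_induction_on generalizing X with
    | _ n ih =>
      by_cases hX : Minimal X
      · exact ⟨X, hX, Iff.rfl, le_rfl⟩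
      · rw [Minimal] at hX
        push Not at hX
        obtain ⟨X₀, h₀⟩ := hX
        obtain ⟨g1, g2, g3⟩ := hT.blow X₀ X h₀
        obtain ⟨Y, h1, h4, h5⟩ := ih (T.bm X₀) (by omega) X₀ rfl
        have h6 := hT.D_blow h₀
        exact ⟨Y, h1, h4.trans (hP X₀ X h₀).symm, by omega⟩
  have viol : ∀ X : T.Mfd, ¬ c₁sq X ≤ 3 * e X → ∃ k : ℕ, 0 < k ∧ D X = 4 * k := fun X h => by
    obtain ⟨m, hm⟩ := hT.dvd X
    rw [D_eq] at hm
    have hm0 : 0 < m := by omega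
    refine ⟨m.toNat, by omega, ?_⟩
    rw [D_eq, hm, Int.toNat_of_nonneg hm0.le]
  tfae_have 1 → 2 := fun h X hX _ => h X hX
  tfae_have 2 → 1 := fun h X hX => by
    obtain ⟨Y, h1, h2, h3⟩ := hmin X
    have h4 := h Y (h2.2 hX) h1
    rw [D_eq, D_eq] at h3
    omega
  tfae_have 1 → 3 := fun h X hX he => by
    have := h X hX
    omega
  tfae_have 3 → 1 := fun h X hX => by
    by_contra hv
    obtain ⟨k, hk, hD⟩ := viol X hv
    obtain ⟨Y, h1, h2, -⟩ := hit X (k - 1)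
    refine h Y (h1.2 hX) ?_
    rw [D_eq] at h2
    have : ((k - 1 : ℕ) : ℤ) = k - 1 := by omega
    rw [this] at h2
    omega
  tfae_have 1 → 4 := fun h X hX he X₀ h₀ => by
    have h1 := h X₀ ((hP X₀ X h₀).1 hX)
    have h2 := hT.D_blow h₀
    rw [D_eq, D_eq] at h2
    omega
  tfae_have 4 → 1 := fun h X hX => by
    by_contra hv
    obtain ⟨k, hk, hD⟩ := viol X hv
    obtain ⟨Y, h1, h2, h3⟩ := hit X k
    refine h3 hk (h Y (h1.2 hX) ?_)
    rw [D_eq] at h2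
    omega
  tfae_finish

/-- simply connected manifolds -/
theorem Symplectic.Facts.blow_plane (hT : T.Facts) (X : T.Mfd) (k : ℕ) (hX : T.SC X) (hk : 0 < k)
    (h : c₁sq X = 3 * e X + 4 * k) : ∃ Y : T.Mfd, T.SC Y ∧ T.bp Y = T.bp X ∧
      T.bm Y = T.bm X + k ∧ c₁sq Y = 3 * e Y ∧ ¬ T.IsPlane Y := by
  obtain ⟨Y, -, h2, h3, h4, h5, -⟩ := hT.iterate X k
  refine ⟨Y, h4.2 hX, h2, h3, ?_, fun hY => ?_⟩
  · rw [D_eq, D_eq] at h5
    omega
  · have := (hT.plane Y hY).2.2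
    omega

theorem Symplectic.Facts.tfae_plane (hT : T.Facts) :
    [∀ X, T.SC X → c₁sq X = 3 * e X → T.IsPlane X,
     ∀ X, T.SC X → ¬ T.IsPlane X → c₁sq X < 3 * e X,
     (∀ X, T.SC X → c₁sq X ≤ 3 * e X) ∧
       ∀ X, T.SC X → Minimal X → c₁sq X = 3 * e X → T.IsPlane X].TFAE := by
  have viol : ∀ X : T.Mfd, ¬ c₁sq X ≤ 3 * e X → ∃ k : ℕ, 0 < k ∧ c₁sq X = 3 * e X + 4 * k :=
    fun X h => by
      obtain ⟨m, hm⟩ := hT.dvd X
      rw [D_eq] at hm
      have hm0 : 0 < m := by omega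
      refine ⟨m.toNat, by omega, ?_⟩
      rw [Int.toNat_of_nonneg hm0.le]
      omega
  tfae_have 1 → 3 := fun h => by
    refine ⟨fun X hX => ?_, fun X hX _ he => h X hX he⟩
    by_contra hv
    obtain ⟨k, hk, hD⟩ := viol X hv
    obtain ⟨Y, h1, -, -, h2, h3⟩ := hT.blow_plane X k hX hk hD
    exact h3 (h Y h1 h2)
  tfae_have 3 → 2 := fun ⟨h, h'⟩ X hX hP => by
    refine lt_of_le_of_ne (h X hX) fun he => hP (h' X hX (fun X₀ h₀ => ?_) he)
    have h1 := h X₀ ((hT.blow_sc X₀ X h₀).1 hX)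
    have h2 := hT.D_blow h₀
    rw [D_eq, D_eq] at h2
    omega
  tfae_have 2 → 1 := fun h X hX he => by
    by_contra hP
    have := h X hX hP
    omega
  tfae_finish

end Pool.Agent.Q28.BM
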